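import Pool.Agent.H17.WP1

namespace Pool.Agent.Results.MP_eac85a_an.NoLines
open Pool.Agent.H17.WP

theorem result :
    ¬ ∃ W : Fin 12 → Submodule ℝ (EuclideanSpace ℝ (Fin 7)),
      (∀ i, Module.finrank ℝ (W i) = 1) ∧ WeakPR W := by
  rintro ⟨W, h1, h2⟩
  obtain ⟨φ, hφ⟩ := prp_of W h1 h2
  exact not_prp φ hφ

end Pool.Agent.Results.MP_eac85a_an.NoLines
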